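import Pool.Agent.W478R.Defs

set_option autoImplicit false

namespace Pool.Agent.W389.R2

open Finset W478R Filter Topology

def Gram {V : Type} (Xg : Finset V) (F : V → V → ℝ) : Prop :=
  ∃ (ι : Type) (s : Finset ι) (wt : ι → ℝ) (g : V → ι → ℝ), (∀ i ∈ s, 0 ≤ wt i) ∧
    ∀ v ∈ Xg, ∀ z ∈ Xg, F v z = ∑ i ∈ s, wt i * g v i * g z i

lemma Gram.mul {V : Type} {Xg : Finset V} {F F' : V → V → ℝ} (h : Gram Xg F) (h' : Gram Xg F') :
    Gram Xg (fun v z => F v z * F' v z) := by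
  obtain ⟨ι, s, wt, g, h0, h1⟩ := h
  obtain ⟨ι', s', wt', g', h0', h1'⟩ := h'
  refine ⟨ι × ι', s ×ˢ s', fun p => wt p.1 * wt' p.2, fun v p => g v p.1 * g' v p.2, ?_, ?_⟩
  · intro p hp
    rw [Finset.mem_product] at hp
    exact mul_nonneg (h0 _ hp.1) (h0' _ hp.2)
  · intro v hv z hz
    show F v z * F' v z = _
    rw [h1 v hv z hz, h1' v hv z hz, Finset.sum_mul_sum, Finset.sum_product]
    refine Finset.sum_congr rfl fun i _ => Finset.sum_congr rfl fun j _ => ?_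
    ring

lemma Gram.nonneg {V : Type} {Xg : Finset V} {F : V → V → ℝ} (h : Gram Xg F) (ρ : V → ℝ) :
    0 ≤ ∑ v ∈ Xg, ρ v * ∑ z ∈ Xg, ρ z * F v z := by
  obtain ⟨ι, s, wt, g, h0, h1⟩ := h
  have h2 : ∑ v ∈ Xg, ρ v * ∑ z ∈ Xg, ρ z * F v z =
      ∑ i ∈ s, wt i * (∑ v ∈ Xg, ρ v * g v i) ^ 2 := by
    have : ∀ i ∈ s, wt i * (∑ v ∈ Xg, ρ v * g v i) ^ 2 =
       ∑ v ∈ Xg, ∑ z ∈ Xg, ρ v * (ρ z * (wt i * g v i * g z i)) := by
      intro i _
      rw [sq, Finset.sum_mul_sum, Finset.mul_sum]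
      refine Finset.sum_congr rfl fun v _ => ?_
      rw [Finset.mul_sum]
      refine Finset.sum_congr rfl fun z _ => ?_
      ring
    rw [Finset.sum_congr rfl this, Finset.sum_comm]
    refine Finset.sum_congr rfl fun v hv => ?_
    rw [Finset.sum_comm, Finset.mul_sum]
    refine Finset.sum_congr rfl fun z hz => ?_
    rw [h1 v hv z hz, Finset.mul_sum, Finset.mul_sum]
  rw [h2]
  exact Finset.sum_nonneg fun i hi => mul_nonneg (h0 i hi) (sq_nonneg _)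

/-- the part of the certificate polynomial with nonnegative coefficients and degree at least 2 -/
noncomputable def PP (b d e x y : ℝ) : ℝ :=
  b * (x * y) + d * (x ^ 3 + y ^ 3) + e * (x * y * (x + y))

lemma Gc_eq (g0 a b d e dl x y : ℝ) :
    Gc g0 a b d e dl x y = g0 + a * (x + y) + PP b d e x y - dl * (x ^ 8 + y ^ 8) := by
  unfold Gc PP; ring

lemma Gc_symm (g0 a b d e dl x y : ℝ) : Gc g0 a b d e dl x y = Gc g0 a b d e dl y x := by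
  unfold Gc; ring

lemma PP_bound (b d e x y : ℝ) (hb : 0 ≤ b) (hd : 0 ≤ d) (he : 0 ≤ e) :
    |PP b d e x y| ≤ (b + d + e) * (1 + |x| ^ 3 + |y| ^ 3) := by
  have hx := abs_nonneg x
  have hy := abs_nonneg y
  have h1 : |x * y| ≤ 1 + |x| ^ 3 + |y| ^ 3 := by
    rw [abs_mul]
    nlinarith [sq_nonneg (|x| - |y|), mul_nonneg hx (sq_nonneg (|x| - 1)),
      mul_nonneg hy (sq_nonneg (|y| - 1)), sq_nonneg (|x| - 1), sq_nonneg (|y| - 1)]
  have h2 : |x ^ 3 + y ^ 3| ≤ 1 + |x| ^ 3 + |y| ^ 3 := by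
    refine (abs_add_le _ _).trans ?_
    rw [abs_pow, abs_pow]
    linarith
  have h3 : |x * y * (x + y)| ≤ 1 + |x| ^ 3 + |y| ^ 3 := by
    rw [abs_mul, abs_mul]
    have h4 := abs_add_le x y
    have h5 : |x| * |y| * |x + y| ≤ |x| * |y| * (|x| + |y|) :=
      mul_le_mul_of_nonneg_left h4 (by positivity)
    nlinarith [mul_nonneg (add_nonneg hx hy) (sq_nonneg (|x| - |y|))]
  unfold PP
  refine (abs_add_le _ _).trans ?_
  have h4 := abs_add_le (b * (x * y)) (d * (x ^ 3 + y ^ 3))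
  rw [abs_mul b, abs_mul d, abs_of_nonneg hb, abs_of_nonneg hd] at h4
  rw [abs_mul e, abs_of_nonneg he]
  have h5 := mul_le_mul_of_nonneg_left h1 hb
  have h6 := mul_le_mul_of_nonneg_left h2 hd
  have h7 := mul_le_mul_of_nonneg_left h3 he
  linarith

lemma cube_bound (k t : ℝ) (ht : 0 ≤ t) (h : |k| ≤ 2 * t + 1) : |k| ^ 3 ≤ 32 * t ^ 3 + 4 := by
  have h1 : |k| ^ 3 ≤ (2 * t + 1) ^ 3 := pow_le_pow_left₀ (abs_nonneg k) h 3
  nlinarith [mul_nonneg (sq_nonneg (2 * t - 1)) (show (0 : ℝ) ≤ 2 * t + 1 by linarith)]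

lemma mul_diff (x y x' y' A B α β : ℝ) (hx : |x| ≤ A) (hy : |y'| ≤ B) (h1 : |x - x'| ≤ α)
    (h2 : |y - y'| ≤ β) : |x * y - x' * y'| ≤ A * β + B * α := by
  have h3 : x * y - x' * y' = x * (y - y') + y' * (x - x') := by ring
  rw [h3]
  refine (abs_add_le _ _).trans ?_
  rw [abs_mul, abs_mul]
  have hA : 0 ≤ A := (abs_nonneg x).trans hx
  have hB : 0 ≤ B := (abs_nonneg y').trans hy
  exact add_le_add (mul_le_mul hx h2 (abs_nonneg _) hA) (mul_le_mul hy h1 (abs_nonneg _) hB)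

lemma PP_diff (b d e x y x' y' R δ : ℝ) (hb : 0 ≤ b) (hd : 0 ≤ d) (he : 0 ≤ e)
    (hx : |x| ≤ R) (hy : |y| ≤ R) (hx' : |x'| ≤ R) (hy' : |y'| ≤ R) (h1 : |x - x'| ≤ δ)
    (h2 : |y - y'| ≤ δ) :
    |PP b d e x y - PP b d e x' y'| ≤ (2 * b * R + 6 * d * R ^ 2 + 6 * e * R ^ 2) * δ := by
  have hR : 0 ≤ R := (abs_nonneg x).trans hx
  have a1 := mul_diff x y x' y' R R δ δ hx hy' h1 h2
  have a2 := mul_diff x x x' x' R R δ δ hx hx' h1 h1
  have a3 := mul_diff y y y' y' R R δ δ hy hy' h2 h2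
  have b2 : |x * x| ≤ R ^ 2 := by
    rw [abs_mul, sq]; exact mul_le_mul hx hx (abs_nonneg _) hR
  have b3 : |y * y| ≤ R ^ 2 := by
    rw [abs_mul, sq]; exact mul_le_mul hy hy (abs_nonneg _) hR
  have c1 := mul_diff (x * x) x (x' * x') x' (R ^ 2) R _ δ b2 hx' a2 h1
  have c2 := mul_diff (y * y) y (y' * y') y' (R ^ 2) R _ δ b3 hy' a3 h2
  have c3 := mul_diff (x * x) y (x' * x') y' (R ^ 2) R _ δ b2 hy' a2 h2
  have c4 := mul_diff (y * y) x (y' * y') x' (R ^ 2) R _ δ b3 hx' a3 h1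
  have e1 : PP b d e x y - PP b d e x' y' = b * (x * y - x' * y') +
      d * ((x * x * x - x' * x' * x') + (y * y * y - y' * y' * y')) +
      e * ((x * x * y - x' * x' * y') + (y * y * x - y' * y' * x')) := by
    unfold PP; ring
  rw [e1]
  refine (abs_add_le _ _).trans ?_
  have h4 := abs_add_le (b * (x * y - x' * y'))
    (d * ((x * x * x - x' * x' * x') + (y * y * y - y' * y' * y')))
  rw [abs_mul b, abs_mul d, abs_of_nonneg hb, abs_of_nonneg hd] at h4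
  rw [abs_mul e, abs_of_nonneg he]
  have h5 := mul_le_mul_of_nonneg_left a1 hb
  have h6 := mul_le_mul_of_nonneg_left ((abs_add_le _ _).trans (add_le_add c1 c2)) hd
  have h7 := mul_le_mul_of_nonneg_left ((abs_add_le _ _).trans (add_le_add c3 c4)) he
  nlinarith

noncomputable def eta (C4 L ε : ℝ) : ℝ := 3 * ε + 2 * (C4 + ε) / L ^ 8

noncomputable def Bb (g0 a dl C4 L ε : ℝ) : ℝ :=
  g0 * (1 - eta C4 L ε) - 2 * a * (L * eta C4 L ε + (C4 + ε) / L ^ 7) - 2 * dl * (C4 + ε)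

noncomputable def Ee (b d e C4 L ε : ℝ) : ℝ :=
  (2 * b * (2 * L + 1) + 6 * d * (2 * L + 1) ^ 2 + 6 * e * (2 * L + 1) ^ 2) * (1 + L) * ε
   + 32 * (b + d + e) * ((1 + 2 * L ^ 3) * ε + 3 / L * (2 * (C4 + ε)))

noncomputable def Uu (αR αB ε : ℝ) : ℝ := (αR + αB) / (2 * (1 - ε) ^ 2)

lemma params (g0 a b d e dl C4 αR αB : ℝ) (hb : 0 ≤ b) (hd : 0 ≤ d) (he : 0 ≤ e)
    (hC4 : 0 ≤ C4) (hαR : 0 ≤ αR) (hαB : 0 ≤ αB)
    (h : αR / 2 + αB / 2 + 2 * dl * C4 < g0) :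
    ∃ L ε : ℝ, 1 ≤ L ∧ 0 < ε ∧ ε < 1 / 2 ∧ 0 ≤ Bb g0 a dl C4 L ε ∧
      Uu αR αB ε < (1 - 2 * ε) * Bb g0 a dl C4 L ε - Ee b d e C4 L ε := by
  let F : ℝ → ℝ := fun x => g0 * (1 - 2 * C4 * x ^ 8) - 2 * a * (2 * C4 * x ^ 7 + C4 * x ^ 7)
    - 2 * dl * C4 - 32 * (b + d + e) * (6 * C4 * x) - (αR + αB) / 2
  have hF : Continuous F := by unfold F; fun_prop
  have hF0 : 0 < F 0 := by unfold F; simp; linarith
  have h1 : ∀ᶠ x in 𝓝[>] (0 : ℝ), 0 < F x :=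
    nhdsWithin_le_nhds (hF.continuousAt.eventually (lt_mem_nhds hF0))
  have h2 : ∀ᶠ x in 𝓝[>] (0 : ℝ), x < 1 :=
    nhdsWithin_le_nhds (gt_mem_nhds (by norm_num))
  have h3 : ∀ᶠ x in 𝓝[>] (0 : ℝ), 0 < x := self_mem_nhdsWithin
  obtain ⟨x, hFx, hx1, hx0⟩ := (h1.and (h2.and h3)).exists
  have hL1 : 1 ≤ x⁻¹ := (one_le_inv₀ hx0).2 hx1.le
  have hL0 : 0 < x⁻¹ := by positivity
  have e0 : Bb g0 a dl C4 x⁻¹ 0 - Ee b d e C4 x⁻¹ 0 - Uu αR αB 0 = F x := by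
    unfold Bb Ee Uu eta F
    have hx := hx0.ne'
    field_simp
    ring
  have e1 : 0 ≤ Ee b d e C4 x⁻¹ 0 := by
    unfold Ee
    positivity
  have e2 : 0 ≤ Uu αR αB 0 := by
    unfold Uu
    positivity
  generalize x⁻¹ = L at *
  have c1 : ContinuousAt (fun ε : ℝ => Bb g0 a dl C4 L ε) 0 := by
    unfold Bb eta
    fun_prop
  have c2 : ContinuousAt (fun ε : ℝ => (1 - 2 * ε) * Bb g0 a dl C4 L ε - Ee b d e C4 L ε
      - Uu αR αB ε) 0 := by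
    unfold Ee Uu
    refine ContinuousAt.sub (ContinuousAt.sub (ContinuousAt.mul (by fun_prop) c1)
      (by fun_prop)) ?_
    refine ContinuousAt.div (by fun_prop) (by fun_prop) (by norm_num)
  have g1 : ∀ᶠ ε in 𝓝[>] (0 : ℝ), 0 < Bb g0 a dl C4 L ε :=
    nhdsWithin_le_nhds (c1.eventually (lt_mem_nhds (by linarith)))
  have g2 : ∀ᶠ ε in 𝓝[>] (0 : ℝ), 0 < (1 - 2 * ε) * Bb g0 a dl C4 L ε - Ee b d e C4 L ε
      - Uu αR αB ε :=
    nhdsWithin_le_nhds (c2.eventually (lt_mem_nhds (by simp only [mul_zero, sub_zero, one_mul]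
                                                       linarith)))
  have g3 : ∀ᶠ x in 𝓝[>] (0 : ℝ), x < 1 / 2 :=
    nhdsWithin_le_nhds (gt_mem_nhds (by norm_num))
  have g4 : ∀ᶠ x in 𝓝[>] (0 : ℝ), 0 < x := self_mem_nhdsWithin
  obtain ⟨ε, k1, k2, k3, k4⟩ := (g1.and (g2.and (g3.and g4))).exists
  exact ⟨L, ε, hL1, k4, k3, k1.le, by linarith⟩

/-- pointwise facts for one side -/
lemma abs_le_tail (x L : ℝ) (hL : 1 ≤ L) : |x| ≤ L + x ^ 8 / L ^ 7 := by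
  have hL0 : 0 < L := by linarith
  by_cases h : |x| ≤ L
  · have : 0 ≤ x ^ 8 / L ^ 7 := by positivity
    linarith
  · push Not at h
    have h1 : |x| ≤ x ^ 8 / L ^ 7 := by
      rw [le_div_iff₀ (by positivity)]
      have h2 : x ^ 8 = |x| * |x| ^ 7 := by
        rw [← pow_succ', Even.pow_abs (by decide)]
      rw [h2]
      exact mul_le_mul_of_nonneg_left (pow_le_pow_left₀ hL0.le h.le 7) (abs_nonneg x)
    linarith

lemma one_le_tail (x L : ℝ) (hL : 1 ≤ L) (h : ¬ |x| ≤ L) : 1 ≤ x ^ 8 / L ^ 8 := by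
  have hL0 : 0 < L := by linarith
  push Not at h
  rw [le_div_iff₀ (by positivity), one_mul, ← Even.pow_abs (n := 8) (by decide) x]
  exact pow_le_pow_left₀ hL0.le h.le 8

lemma cubes_tail (x y L : ℝ) (hL : 1 ≤ L) (h : ¬ (|x| ≤ L ∧ |y| ≤ L)) :
    1 + |x| ^ 3 + |y| ^ 3 ≤ 3 / L * (x ^ 8 + y ^ 8) := by
  have hL0 : 0 < L := by linarith
  rw [← Even.pow_abs (n := 8) (by decide) x, ← Even.pow_abs (n := 8) (by decide) y,
    div_mul_eq_mul_div, le_div_iff₀ hL0]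
  have hx := abs_nonneg x
  have hy := abs_nonneg y
  generalize |x| = X at *
  generalize |y| = Y at *
  have key : ∀ m n : ℝ, 0 ≤ m → 0 ≤ n → n ≤ m → L < m →
      (1 + m ^ 3 + n ^ 3) * L ≤ 3 * m ^ 8 := by
    intro m n hm hn hnm hLm
    have h1 : n ^ 3 ≤ m ^ 3 := pow_le_pow_left₀ hn hnm 3
    have h2 : 1 ≤ m ^ 3 := one_le_pow₀ (by linarith)
    have h3 : (1 + m ^ 3 + n ^ 3) * L ≤ (3 * m ^ 3) * m :=
      mul_le_mul (by linarith) hLm.le hL0.le (by positivity)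
    have h4 : m ^ 4 ≤ m ^ 8 := pow_le_pow_right₀ (by linarith) (by norm_num)
    nlinarith
  have hX4 : 0 ≤ X ^ 8 := by positivity
  have hY4 : 0 ≤ Y ^ 8 := by positivity
  rcases le_total X Y with hXY | hXY
  · have h1 : L < Y := by
      by_contra hc
      push Not at hc
      exact h ⟨hXY.trans hc, hc⟩
    have := key Y X hy hx hXY h1
    nlinarith
  · have h1 : L < X := by
      by_contra hc
      push Not at hc
      exact h ⟨hc, hXY.trans hc⟩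
    have := key X Y hx hy hXY h1
    nlinarith

lemma core {V : Type} [DecidableEq V] (X Xg Q : Finset V) (ρ : V → ℝ) (x1 x2 k1 k2 : V → ℝ)
    (v : V) (g0 a b d e dl C4 L ε : ℝ)
    (hg : 0 ≤ g0) (ha : 0 ≤ a) (hb : 0 ≤ b) (hd : 0 ≤ d) (he : 0 ≤ e) (hdl : 0 ≤ dl)
    (hL : 1 ≤ L) (hε : 0 < ε) (hε1 : ε ≤ 1)
    (hXg : Xg ⊆ X) (hρ : ∀ z ∈ X, 0 ≤ ρ z) (hρ1 : ∑ z ∈ X, ρ z = 1)
    (hbad : ∑ z ∈ X, ρ z - ∑ z ∈ Xg, ρ z ≤ 2 * ε) (hv : v ∈ Xg) (hρv : ρ v ≤ ε)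
    (hm1 : ∑ z ∈ X, ρ z * x1 z = 0) (hm2 : ∑ z ∈ X, ρ z * x2 z = 0)
    (hf1 : ∑ z ∈ X, ρ z * x1 z ^ 8 ≤ C4 + ε) (hf2 : ∑ z ∈ X, ρ z * x2 z ^ 8 ≤ C4 + ε)
    (hc1 : ∀ z ∈ Xg, |k1 z - x1 z| ≤ ε * (1 + |x1 z|))
    (hc2 : ∀ z ∈ Xg, |k2 z - x2 z| ≤ ε * (1 + |x2 z|))
    (hQ : Q = Xg.filter (fun z => z ≠ v ∧ |x1 z| ≤ L ∧ |x2 z| ≤ L)) :
    Bb g0 a dl C4 L ε + ∑ z ∈ Xg, ρ z * PP b d e (k1 z) (k2 z) - Ee b d e C4 L ε ≤
      ∑ z ∈ Q, ρ z * Gc g0 a b d e dl (x1 z) (x2 z) := by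
  have hL0 : 0 < L := by linarith
  have hQg : Q ⊆ Xg := by rw [hQ]; exact Finset.filter_subset _ _
  have hQX : Q ⊆ X := hQg.trans hXg
  have memQ : ∀ z, z ∈ Q ↔ z ∈ Xg ∧ (z ≠ v ∧ |x1 z| ≤ L ∧ |x2 z| ≤ L) := by
    intro z; rw [hQ, Finset.mem_filter]
  have hρg : ∀ z ∈ Xg, 0 ≤ ρ z := fun z hz => hρ z (hXg hz)
  have hρQ : ∀ z ∈ Q, 0 ≤ ρ z := fun z hz => hρ z (hQX hz)
  have mono : ∀ S : Finset V, S ⊆ X → ∀ f : V → ℝ, (∀ z, 0 ≤ f z) →
      ∑ z ∈ S, ρ z * f z ≤ ∑ z ∈ X, ρ z * f z := by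
    intro S hS f hf
    exact Finset.sum_le_sum_of_subset_of_nonneg hS (fun z hz _ => mul_nonneg (hρ z hz) (hf z))
  have monog : ∀ f : V → ℝ, (∀ z, 0 ≤ f z) →
      ∑ z ∈ Xg \ Q, ρ z * f z ≤ ∑ z ∈ Xg, ρ z * f z := by
    intro f hf
    exact Finset.sum_le_sum_of_subset_of_nonneg Finset.sdiff_subset
      (fun z hz _ => mul_nonneg (hρg z hz) (hf z))
  have sumv : ∀ c : ℝ, ∑ z ∈ Xg, ρ z * (if z = v then c else 0) = ρ v * c := by
    intro c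
    simp [mul_ite, hv]
  have g1 : ∑ z ∈ Xg, ρ z * x1 z ^ 8 ≤ C4 + ε :=
    (mono Xg hXg (fun z => x1 z ^ 8) (fun z => by positivity)).trans hf1
  have g2 : ∑ z ∈ Xg, ρ z * x2 z ^ 8 ≤ C4 + ε :=
    (mono Xg hXg (fun z => x2 z ^ 8) (fun z => by positivity)).trans hf2
  -- (a) the mass of the complement of Q
  have ma : ∑ z ∈ Xg \ Q, ρ z ≤ ε + 2 * (C4 + ε) / L ^ 8 := by
    have h1 : ∑ z ∈ Xg \ Q, ρ z ≤ ∑ z ∈ Xg \ Q, ρ z *
        ((if z = v then 1 else 0) + x1 z ^ 8 / L ^ 8 + x2 z ^ 8 / L ^ 8) := by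
      refine Finset.sum_le_sum fun z hz => ?_
      rw [Finset.mem_sdiff, memQ] at hz
      have h2 : (0 : ℝ) ≤ (if z = v then 1 else 0) := by split_ifs <;> norm_num
      have h3 : 0 ≤ x1 z ^ 8 / L ^ 8 := by positivity
      have h4 : 0 ≤ x2 z ^ 8 / L ^ 8 := by positivity
      have h5 : 1 ≤ (if z = v then 1 else 0) + x1 z ^ 8 / L ^ 8 + x2 z ^ 8 / L ^ 8 := by
        by_cases hzv : z = v
        · rw [if_pos hzv]; linarith
        · by_cases h6 : |x1 z| ≤ L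
          · have h7 : ¬ |x2 z| ≤ L := fun h7 => hz.2 ⟨hz.1, hzv, h6, h7⟩
            have := one_le_tail _ L hL h7
            linarith
          · have := one_le_tail _ L hL h6
            linarith
      have h6 := mul_le_mul_of_nonneg_left h5 (hρg z hz.1)
      linarith
    refine h1.trans ((monog _ (fun z => ?_)).trans ?_)
    · have h2 : (0 : ℝ) ≤ (if z = v then 1 else 0) := by split_ifs <;> norm_num
      positivity
    · simp only [mul_add, Finset.sum_add_distrib]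
      rw [sumv]
      have e1 : ∑ z ∈ Xg, ρ z * (x1 z ^ 8 / L ^ 8) = (∑ z ∈ Xg, ρ z * x1 z ^ 8) / L ^ 8 := by
        rw [Finset.sum_div]
        exact Finset.sum_congr rfl fun z _ => by rw [mul_div_assoc]
      have e2 : ∑ z ∈ Xg, ρ z * (x2 z ^ 8 / L ^ 8) = (∑ z ∈ Xg, ρ z * x2 z ^ 8) / L ^ 8 := by
        rw [Finset.sum_div]
        exact Finset.sum_congr rfl fun z _ => by rw [mul_div_assoc]
      rw [e1, e2]
      have e3 : (∑ z ∈ Xg, ρ z * x1 z ^ 8) / L ^ 8 ≤ (C4 + ε) / L ^ 8 :=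
        div_le_div_of_nonneg_right g1 (by positivity)
      have e4 : (∑ z ∈ Xg, ρ z * x2 z ^ 8) / L ^ 8 ≤ (C4 + ε) / L ^ 8 :=
        div_le_div_of_nonneg_right g2 (by positivity)
      have e6 : (2 * C4 + 2 * ε) / L ^ 8 = (C4 + ε) / L ^ 8 + (C4 + ε) / L ^ 8 := by ring
      rw [e6]; linarith
  have sXg : ∑ z ∈ Xg \ Q, ρ z + ∑ z ∈ Q, ρ z = ∑ z ∈ Xg, ρ z := Finset.sum_sdiff hQg
  have sX : ∑ z ∈ X \ Q, ρ z + ∑ z ∈ Q, ρ z = ∑ z ∈ X, ρ z := Finset.sum_sdiff hQX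
  have mass : ∑ z ∈ X \ Q, ρ z ≤ eta C4 L ε := by
    unfold eta
    linarith
  have massQ : 1 - eta C4 L ε ≤ ∑ z ∈ Q, ρ z := by linarith
  have massQ1 : ∑ z ∈ Q, ρ z ≤ 1 := by
    have := mono Q hQX (fun _ => 1) (fun _ => by norm_num)
    simpa [hρ1] using this
  -- (b) linear terms
  have lin : ∀ x : V → ℝ, ∑ z ∈ X, ρ z * x z = 0 → ∑ z ∈ X, ρ z * x z ^ 8 ≤ C4 + ε →
      -(L * eta C4 L ε + (C4 + ε) / L ^ 7) ≤ ∑ z ∈ Q, ρ z * x z := by
    intro x hm hf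
    have h1 : ∑ z ∈ X \ Q, ρ z * x z + ∑ z ∈ Q, ρ z * x z = ∑ z ∈ X, ρ z * x z :=
      Finset.sum_sdiff hQX
    have h2 : ∑ z ∈ X \ Q, ρ z * x z ≤ ∑ z ∈ X \ Q, (L * ρ z + ρ z * x z ^ 8 / L ^ 7) := by
      refine Finset.sum_le_sum fun z hz => ?_
      have h3 := (le_abs_self (x z)).trans (abs_le_tail (x z) L hL)
      have h4 := mul_le_mul_of_nonneg_left h3 (hρ z (Finset.mem_sdiff.1 hz).1)
      calc ρ z * x z ≤ ρ z * (L + x z ^ 8 / L ^ 7) := h4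
        _ = L * ρ z + ρ z * x z ^ 8 / L ^ 7 := by ring
    rw [Finset.sum_add_distrib, ← Finset.mul_sum, ← Finset.sum_div] at h2
    have h5 : (∑ z ∈ X \ Q, ρ z * x z ^ 8) ≤ C4 + ε :=
      (mono _ Finset.sdiff_subset (fun z => x z ^ 8) (fun z => by positivity)).trans hf
    have h6 : (∑ z ∈ X \ Q, ρ z * x z ^ 8) / L ^ 7 ≤ (C4 + ε) / L ^ 7 :=
      div_le_div_of_nonneg_right h5 (by positivity)
    have h7 := mul_le_mul_of_nonneg_left mass hL0.le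
    linarith
  have lin1 := lin x1 hm1 hf1
  have lin2 := lin x2 hm2 hf2
  -- fourth powers
  have q1 : ∑ z ∈ Q, ρ z * x1 z ^ 8 ≤ C4 + ε :=
    (mono Q hQX (fun z => x1 z ^ 8) (fun z => by positivity)).trans hf1
  have q2 : ∑ z ∈ Q, ρ z * x2 z ^ 8 ≤ C4 + ε :=
    (mono Q hQX (fun z => x2 z ^ 8) (fun z => by positivity)).trans hf2
  -- (c) the polynomial
  have kb : ∀ k x : ℝ, |k - x| ≤ ε * (1 + |x|) → |k| ≤ 2 * |x| + 1 := by
    intro k x h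
    have h1 : |k| ≤ |k - x| + |x| := by
      have := abs_add_le (k - x) x
      simpa using this
    have h2 : ε * (1 + |x|) ≤ 1 * (1 + |x|) :=
      mul_le_mul_of_nonneg_right hε1 (by positivity)
    linarith
  have pc : ∑ z ∈ Xg \ Q, ρ z * PP b d e (k1 z) (k2 z) ≤
      32 * (b + d + e) * ((1 + 2 * L ^ 3) * ε + 3 / L * (2 * (C4 + ε))) := by
    have h1 : ∑ z ∈ Xg \ Q, ρ z * PP b d e (k1 z) (k2 z) ≤ ∑ z ∈ Xg \ Q, ρ z *
        (32 * (b + d + e) * ((if z = v then (1 + 2 * L ^ 3) else 0)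
          + 3 / L * (x1 z ^ 8 + x2 z ^ 8))) := by
      refine Finset.sum_le_sum fun z hz => ?_
      rw [Finset.mem_sdiff, memQ] at hz
      refine mul_le_mul_of_nonneg_left ?_ (hρg z hz.1)
      have h2 := kb _ _ (hc1 z hz.1)
      have h3 := kb _ _ (hc2 z hz.1)
      have h4 := cube_bound _ _ (abs_nonneg _) h2
      have h5 := cube_bound _ _ (abs_nonneg _) h3
      have h6 := (le_abs_self _).trans (PP_bound b d e (k1 z) (k2 z) hb hd he)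
      have h7 : (b + d + e) * (1 + |k1 z| ^ 3 + |k2 z| ^ 3) ≤
          (b + d + e) * (32 * (1 + |x1 z| ^ 3 + |x2 z| ^ 3)) :=
        mul_le_mul_of_nonneg_left (by linarith) (by positivity)
      have h8 : 1 + |x1 z| ^ 3 + |x2 z| ^ 3 ≤ (if z = v then (1 + 2 * L ^ 3) else 0)
          + 3 / L * (x1 z ^ 8 + x2 z ^ 8) := by
        by_cases h9 : |x1 z| ≤ L ∧ |x2 z| ≤ L
        · have hzv : z = v := by
            by_contra hne
            exact hz.2 ⟨hz.1, hne, h9.1, h9.2⟩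
          rw [if_pos hzv]
          have h10 := pow_le_pow_left₀ (abs_nonneg _) h9.1 3
          have h11 := pow_le_pow_left₀ (abs_nonneg _) h9.2 3
          have h12 : 0 ≤ 3 / L * (x1 z ^ 8 + x2 z ^ 8) := by positivity
          linarith
        · have h10 := cubes_tail (x1 z) (x2 z) L hL h9
          have h12 : (0 : ℝ) ≤ (if z = v then (1 + 2 * L ^ 3) else 0) := by
            split_ifs <;> positivity
          linarith
      have h9 := mul_le_mul_of_nonneg_left h8 (show 0 ≤ 32 * (b + d + e) by positivity)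
      linarith
    refine h1.trans ((monog _ (fun z => ?_)).trans ?_)
    · have h12 : (0 : ℝ) ≤ (if z = v then (1 + 2 * L ^ 3) else 0) := by
        split_ifs <;> positivity
      positivity
    · have e1 : ∑ z ∈ Xg, ρ z * (32 * (b + d + e) * ((if z = v then (1 + 2 * L ^ 3) else 0)
          + 3 / L * (x1 z ^ 8 + x2 z ^ 8))) = 32 * (b + d + e) * (
          ∑ z ∈ Xg, ρ z * (if z = v then (1 + 2 * L ^ 3) else 0)
          + 3 / L * (∑ z ∈ Xg, ρ z * x1 z ^ 8 + ∑ z ∈ Xg, ρ z * x2 z ^ 8)) := by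
        rw [← Finset.sum_add_distrib, Finset.mul_sum, ← Finset.sum_add_distrib, Finset.mul_sum]
        exact Finset.sum_congr rfl fun z _ => by ring
      rw [e1, sumv]
      refine mul_le_mul_of_nonneg_left ?_ (by positivity)
      have e2 : ρ v * (1 + 2 * L ^ 3) ≤ (1 + 2 * L ^ 3) * ε := by
        rw [mul_comm]
        exact mul_le_mul_of_nonneg_left hρv (by positivity)
      have e3 : 3 / L * (∑ z ∈ Xg, ρ z * x1 z ^ 8 + ∑ z ∈ Xg, ρ z * x2 z ^ 8) ≤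
          3 / L * (2 * (C4 + ε)) := mul_le_mul_of_nonneg_left (by linarith) (by positivity)
      linarith
  have pd : ∑ z ∈ Q, ρ z * PP b d e (k1 z) (k2 z) ≤ ∑ z ∈ Q, ρ z * PP b d e (x1 z) (x2 z) +
      (2 * b * (2 * L + 1) + 6 * d * (2 * L + 1) ^ 2 + 6 * e * (2 * L + 1) ^ 2) * (1 + L) * ε := by
    have h1 : ∀ z ∈ Q, ρ z * PP b d e (k1 z) (k2 z) ≤ ρ z * PP b d e (x1 z) (x2 z) +
        ρ z * ((2 * b * (2 * L + 1) + 6 * d * (2 * L + 1) ^ 2 + 6 * e * (2 * L + 1) ^ 2)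
          * (1 + L) * ε) := by
      intro z hz
      rw [← mul_add]
      refine mul_le_mul_of_nonneg_left ?_ (hρQ z hz)
      obtain ⟨hzg, -, h2, h3⟩ := (memQ z).1 hz
      have h4 := kb _ _ (hc1 z hzg)
      have h5 := kb _ _ (hc2 z hzg)
      have h6 : |k1 z - x1 z| ≤ ε * (1 + L) :=
        (hc1 z hzg).trans (mul_le_mul_of_nonneg_left (by linarith) hε.le)
      have h7 : |k2 z - x2 z| ≤ ε * (1 + L) :=
        (hc2 z hzg).trans (mul_le_mul_of_nonneg_left (by linarith) hε.le)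
      have h8 := (le_abs_self _).trans (PP_diff b d e (k1 z) (k2 z) (x1 z) (x2 z) (2 * L + 1)
        (ε * (1 + L)) hb hd he (by linarith) (by linarith) (by linarith) (by linarith) h6 h7)
      linarith
    have h2 := Finset.sum_le_sum h1
    rw [Finset.sum_add_distrib, ← Finset.sum_mul] at h2
    have h3 : (∑ z ∈ Q, ρ z) * ((2 * b * (2 * L + 1) + 6 * d * (2 * L + 1) ^ 2
        + 6 * e * (2 * L + 1) ^ 2) * (1 + L) * ε) ≤
        1 * ((2 * b * (2 * L + 1) + 6 * d * (2 * L + 1) ^ 2 + 6 * e * (2 * L + 1) ^ 2)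
          * (1 + L) * ε) := mul_le_mul_of_nonneg_right massQ1 (by positivity)
    linarith
  have pX : ∑ z ∈ Xg \ Q, ρ z * PP b d e (k1 z) (k2 z) + ∑ z ∈ Q, ρ z * PP b d e (k1 z) (k2 z)
      = ∑ z ∈ Xg, ρ z * PP b d e (k1 z) (k2 z) := Finset.sum_sdiff hQg
  have tot : ∑ z ∈ Q, ρ z * Gc g0 a b d e dl (x1 z) (x2 z) = g0 * ∑ z ∈ Q, ρ z
      + a * (∑ z ∈ Q, ρ z * x1 z + ∑ z ∈ Q, ρ z * x2 z)
      + ∑ z ∈ Q, ρ z * PP b d e (x1 z) (x2 z)
      - dl * (∑ z ∈ Q, ρ z * x1 z ^ 8 + ∑ z ∈ Q, ρ z * x2 z ^ 8) := by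
    rw [← Finset.sum_add_distrib, ← Finset.sum_add_distrib, Finset.mul_sum, Finset.mul_sum,
      Finset.mul_sum, ← Finset.sum_add_distrib, ← Finset.sum_add_distrib,
      ← Finset.sum_sub_distrib]
    exact Finset.sum_congr rfl fun z _ => by rw [Gc_eq]; ring
  rw [tot]
  have t1 := mul_le_mul_of_nonneg_left massQ hg
  have t2 := mul_le_mul_of_nonneg_left (add_le_add lin1 lin2) ha
  have t3 := mul_le_mul_of_nonneg_left (add_le_add q1 q2) hdl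
  unfold Bb Ee
  linarith

theorem combine : Combine := by
  intro T g0 a b d e dl C4 αR αB hC hC4 hαR hαB hlt
  obtain ⟨hT0, hT1, hg, ha, hb, hd, he, hdl, hc⟩ := hC
  obtain ⟨L, ε, hL, hε, hε2, hB0, hfin⟩ := params g0 a b d e dl C4 αR αB hb hd he hC4 hαR hαB
    (by linarith)
  refine ⟨L, ε, by linarith, hε, by linarith, ?_⟩
  intro V _ X Xg Y1 Y2 ρ ξ1 ξ2 K1 K2 Rd Bl hXg hρ hρ1 hbad hρε hm1 hm2 hf1 hf2 hG1 hG2 hc1 hc2
    hRB hR hB
  classical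
  have hε1 : (0 : ℝ) < (1 - ε) ^ 2 := by
    have : 0 < 1 - ε := by linarith
    positivity
  -- upper bound
  have up : ∀ v ∈ Xg, ∑ z ∈ Xg.filter (fun z => z ≠ v ∧ |ξ1 v z| ≤ L ∧ |ξ2 v z| ≤ L),
      ρ z * Gc g0 a b d e dl (ξ1 v z) (ξ2 v z) ≤ Uu αR αB ε := by
    intro v hv
    set Q := Xg.filter (fun z => z ≠ v ∧ |ξ1 v z| ≤ L ∧ |ξ2 v z| ≤ L) with hQ
    have memQ : ∀ z, z ∈ Q ↔ z ∈ Xg ∧ (z ≠ v ∧ |ξ1 v z| ≤ L ∧ |ξ2 v z| ≤ L) := by
      intro z; rw [hQ, Finset.mem_filter]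
    have hQg : Q ⊆ Xg := Finset.filter_subset _ _
    have h1 := hR v hv (Q.filter (fun z => Rd v z)) ((Finset.filter_subset _ _).trans hQg) (by
      intro z hz
      rw [Finset.mem_filter, memQ] at hz
      exact ⟨hz.2, hz.1.2.2⟩)
    have h2 := hB v hv (Q.filter (fun z => ¬ Rd v z)) ((Finset.filter_subset _ _).trans hQg) (by
      intro z hz
      rw [Finset.mem_filter, memQ] at hz
      exact ⟨(hRB v hv z hz.1.1 (Ne.symm hz.1.2.1)).resolve_left hz.2, hz.1.2.2⟩)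
    rw [← Finset.sum_filter_add_sum_filter_not Q (fun z => Rd v z)]
    have h3 : ∑ z ∈ Q.filter (fun z => Rd v z), ρ z * Gc g0 a b d e dl (ξ1 v z) (ξ2 v z) ≤
        (∑ z ∈ Q.filter (fun z => Rd v z), ρ z * Real.exp (ξ1 v z + T * ξ2 v z)) / 2 := by
      rw [Finset.sum_div]
      refine Finset.sum_le_sum fun z hz => ?_
      rw [Finset.mem_filter, memQ] at hz
      have h4 := mul_le_mul_of_nonneg_left (hc (ξ1 v z) (ξ2 v z)) (hρ z (hXg hz.1.1))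
      linarith
    have h4 : ∑ z ∈ Q.filter (fun z => ¬ Rd v z), ρ z * Gc g0 a b d e dl (ξ1 v z) (ξ2 v z) ≤
        (∑ z ∈ Q.filter (fun z => ¬ Rd v z), ρ z * Real.exp (T * ξ1 v z + ξ2 v z)) / 2 := by
      rw [Finset.sum_div]
      refine Finset.sum_le_sum fun z hz => ?_
      rw [Finset.mem_filter, memQ] at hz
      have h4 := mul_le_mul_of_nonneg_left (hc (ξ2 v z) (ξ1 v z)) (hρ z (hXg hz.1.1))
      rw [Gc_symm, add_comm (ξ2 v z)] at h4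
      linarith
    have h5 : ∑ z ∈ Q.filter (fun z => Rd v z), ρ z * Real.exp (ξ1 v z + T * ξ2 v z) ≤
        αR / (1 - ε) ^ 2 := by
      rw [le_div_iff₀ hε1, mul_comm]; exact h1
    have h6 : ∑ z ∈ Q.filter (fun z => ¬ Rd v z), ρ z * Real.exp (T * ξ1 v z + ξ2 v z) ≤
        αB / (1 - ε) ^ 2 := by
      rw [le_div_iff₀ hε1, mul_comm]; exact h2
    have h7 : Uu αR αB ε = αR / (1 - ε) ^ 2 / 2 + αB / (1 - ε) ^ 2 / 2 := by
      unfold Uu
      have : (1 - ε) ^ 2 ≠ 0 := hε1.ne'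
      field_simp
    rw [h7]
    linarith
  have per : ∀ v ∈ Xg, ρ v * (∑ z ∈ Xg, ρ z * PP b d e (K1 v z) (K2 v z)) ≤
      ρ v * (Uu αR αB ε - Bb g0 a dl C4 L ε + Ee b d e C4 L ε) := by
    intro v hv
    refine mul_le_mul_of_nonneg_left ?_ (hρ v (hXg hv))
    have h1 := core X Xg _ ρ (ξ1 v) (ξ2 v) (K1 v) (K2 v) v g0 a b d e dl C4 L ε hg.le ha hb hd he
      hdl hL hε (by linarith) hXg hρ hρ1 hbad hv (hρε v (hXg hv)) (hm1 v hv) (hm2 v hv)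
      (hf1 v hv) (hf2 v hv) (hc1 v hv) (hc2 v hv) rfl
    have h2 := up v hv
    linarith
  have h1 := Finset.sum_le_sum per
  rw [← Finset.sum_mul] at h1
  have gr1 : Gram Xg K1 := by
    obtain ⟨wt, g, h0, h2⟩ := hG1
    exact ⟨V, Y1, wt, g, h0, h2⟩
  have gr2 : Gram Xg K2 := by
    obtain ⟨wt, g, h0, h2⟩ := hG2
    exact ⟨V, Y2, wt, g, h0, h2⟩
  have n1 := (gr1.mul gr2).nonneg ρ
  have n2 := ((gr1.mul gr1).mul gr1).nonneg ρ
  have n3 := ((gr2.mul gr2).mul gr2).nonneg ρ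
  have n4 := ((gr1.mul gr1).mul gr2).nonneg ρ
  have n5 := ((gr1.mul gr2).mul gr2).nonneg ρ
  have h2 : ∑ v ∈ Xg, ρ v * (∑ z ∈ Xg, ρ z * PP b d e (K1 v z) (K2 v z)) =
      b * (∑ v ∈ Xg, ρ v * ∑ z ∈ Xg, ρ z * (K1 v z * K2 v z))
      + d * (∑ v ∈ Xg, ρ v * ∑ z ∈ Xg, ρ z * (K1 v z * K1 v z * K1 v z))
      + d * (∑ v ∈ Xg, ρ v * ∑ z ∈ Xg, ρ z * (K2 v z * K2 v z * K2 v z))
      + e * (∑ v ∈ Xg, ρ v * ∑ z ∈ Xg, ρ z * (K1 v z * K1 v z * K2 v z))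
      + e * (∑ v ∈ Xg, ρ v * ∑ z ∈ Xg, ρ z * (K1 v z * K2 v z * K2 v z)) := by
    simp only [Finset.mul_sum, ← Finset.sum_add_distrib]
    refine Finset.sum_congr rfl fun v _ => Finset.sum_congr rfl fun z _ => ?_
    unfold PP; ring
  rw [h2] at h1
  have m1 := mul_nonneg hb n1
  have m2 := mul_nonneg hd n2
  have m3 := mul_nonneg hd n3
  have m4 := mul_nonneg he n4
  have m5 := mul_nonneg he n5
  have h3 : 0 ≤ (∑ v ∈ Xg, ρ v) * (Uu αR αB ε - Bb g0 a dl C4 L ε + Ee b d e C4 L ε) := by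
    linarith
  have h4 : 0 < ∑ v ∈ Xg, ρ v := by linarith
  have h5 : 0 ≤ Uu αR αB ε - Bb g0 a dl C4 L ε + Ee b d e C4 L ε := by
    by_contra hc
    push Not at hc
    have := mul_neg_of_pos_of_neg h4 hc
    linarith
  have h6 : 0 ≤ 2 * ε * Bb g0 a dl C4 L ε := by positivity
  linarith

end Pool.Agent.W389.R2
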